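import Pool.Agent.Y466.KS.Stm

/-! Project KS, part NEC: the elementary necessary conditions for the determinant and the signature
of a Seifert matrix. -/

set_option autoImplicit false

namespace Pool.Agent.Y776.KS

open Matrix Pool.Agent.Y466.KS

theorem trace_K {n : ℕ} (V K : Matrix (Fin n) (Fin n) ℤ) (h1 : K * (V - Vᵀ) = 1) :
    2 * trace (K * Vᵀ) = -(n : ℤ) := by
  have h2 : (V - Vᵀ) * K = 1 := mul_eq_one_comm.1 h1
  -- `Kᵀ = - K`
  have h3 : (V - Vᵀ) * (-Kᵀ) = 1 := by
    have h4 := congrArg transpose h1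
    rw [transpose_mul, transpose_one, transpose_sub, transpose_transpose] at h4
    rw [← h4, Matrix.mul_neg, ← Matrix.neg_mul, neg_sub]
  have h5 : Kᵀ = -K := by
    have h6 : -Kᵀ = K := by
      calc -Kᵀ = (K * (V - Vᵀ)) * (-Kᵀ) := by rw [h1, Matrix.one_mul]
        _ = K * ((V - Vᵀ) * (-Kᵀ)) := by rw [Matrix.mul_assoc]
        _ = K := by rw [h3, Matrix.mul_one]
    rw [← h6, neg_neg]
    rw [h6]
  have h7 : trace (K * Vᵀ) = -trace (K * V) := by
    rw [← trace_transpose (K * Vᵀ), transpose_mul, transpose_transpose, h5, Matrix.mul_neg,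
      trace_neg, trace_mul_comm]
  have h8 : trace (K * V) - trace (K * Vᵀ) = (n : ℤ) := by
    rw [← trace_sub, ← Matrix.mul_sub, h1, trace_one, Fintype.card_fin]
  linarith

theorem det_mod {g : ℕ} (V : Matrix (Fin (2 * g)) (Fin (2 * g)) ℤ) (h : (V - Vᵀ).det = 1) :
    ∃ q : ℤ, (V + Vᵀ).det = 1 - 2 * g + 4 * q := by
  set K := (V - Vᵀ).adjugate with hK
  have h1 : K * (V - Vᵀ) = 1 := by rw [hK, adjugate_mul, h, one_smul]
  have h2 : (V - Vᵀ) * K = 1 := mul_eq_one_comm.1 h1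
  have h3 := trace_K V K h1
  have h4 : V + Vᵀ = (V - Vᵀ) * (1 + (2 : ℤ) • (K * Vᵀ)) := by
    rw [Matrix.mul_add, Matrix.mul_one, Matrix.mul_smul, ← Matrix.mul_assoc, h2, Matrix.one_mul]
    rw [two_smul]
    abel
  have h5 : (V + Vᵀ).det = (1 + (2 : ℤ) • (K * Vᵀ)).det := by
    rw [h4, det_mul, h, one_mul]
  rw [h5, det_one_add_smul]
  have h6 : trace (K * Vᵀ) * 2 = -(2 * (g : ℤ)) := by
    push_cast at h3
    linarith
  rw [h6]
  generalize Polynomial.eval (2 : ℤ) _ = t
  exact ⟨t, by ring⟩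

theorem sum_sign (n : ℕ) (e : Fin n → ℤ) (he : ∀ i, e i = 1 ∨ e i = -1) (s : Finset (Fin n)) :
    (4 : ℤ) ∣ ∑ i ∈ s, e i - (s.card + ∏ i ∈ s, e i - 1) ∧
      (∏ i ∈ s, e i = 1 ∨ ∏ i ∈ s, e i = -1) := by
  classical
  induction s using Finset.induction_on with
  | empty => simp
  | insert a s ha ih =>
    obtain ⟨⟨q, hq⟩, h2⟩ := ih
    rw [Finset.sum_insert ha, Finset.prod_insert ha, Finset.card_insert_of_notMem ha]
    push_cast
    have h3 := he a
    constructor
    · rcases h3 with h3 | h3 <;> rcases h2 with h2 | h2 <;> rw [h3, h2] <;> rw [h2] at hq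
      · exact ⟨q, by linarith⟩
      · exact ⟨q, by linarith⟩
      · exact ⟨q, by linarith⟩
      · exact ⟨q - 1, by linarith⟩
    · rcases h3 with h3 | h3 <;> rcases h2 with h2 | h2 <;> rw [h3, h2] <;> simp

theorem sign_prod (n : ℕ) (a : Fin n → ℤ) (s : Finset (Fin n)) :
    (∏ i ∈ s, 2 * a i).sign = ∏ i ∈ s, (a i).sign := by
  classical
  induction s using Finset.induction_on with
  | empty => simp
  | insert b s hb ih =>
    rw [Finset.prod_insert hb, Finset.prod_insert hb, Int.sign_mul, ih, Int.sign_mul,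
      show Int.sign 2 = 1 from rfl, one_mul]

theorem sum_abs_le (n : ℕ) (e : Fin n → ℤ) (he : ∀ i, e i = 1 ∨ e i = -1) :
    |∑ i, e i| ≤ n := by
  refine (Finset.abs_sum_le_sum_abs _ _).trans ?_
  have : ∀ i ∈ (Finset.univ : Finset (Fin n)), |e i| = 1 := fun i _ => by
    rcases he i with h | h <;> rw [h] <;> simp
  rw [Finset.sum_congr rfl this]
  simp

theorem nec (h : DIAG) : NEC := by
  intro g V hV
  obtain ⟨q, hq⟩ := det_mod V hV
  have hodd : (V + Vᵀ).det ≠ 0 := by omega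
  have hsymm : (V + Vᵀ).IsSymm := by
    unfold Matrix.IsSymm
    rw [transpose_add, transpose_transpose, add_comm]
  have heven : ∀ i, Even ((V + Vᵀ) i i) := fun i => ⟨V i i, by simp [Matrix.add_apply]⟩
  obtain ⟨P, a, hP, ha, hPA, hsig⟩ := h (2 * g) (V + Vᵀ) hsymm heven hodd
  have he : ∀ i, (a i).sign = 1 ∨ (a i).sign = -1 := fun i => by
    rcases lt_trichotomy (a i) 0 with h1 | h1 | h1
    · exact Or.inr (Int.sign_eq_neg_one_of_neg h1)
    · exact absurd h1 (ha i)
    · exact Or.inl (Int.sign_eq_one_of_pos h1)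
  have hdet : P.det * (V + Vᵀ).det * P.det = ∏ i, 2 * a i := by
    have h1 := congrArg det hPA
    rw [det_mul, det_mul, det_transpose, det_diagonal] at h1
    exact h1
  have hsgn : ((V + Vᵀ).det).sign = ∏ i, (a i).sign := by
    rw [← sign_prod, ← hdet, Int.sign_mul, Int.sign_mul]
    rcases lt_trichotomy P.det 0 with h1 | h1 | h1
    · rw [Int.sign_eq_neg_one_of_neg h1]; ring
    · exact absurd h1 hP
    · rw [Int.sign_eq_one_of_pos h1]; ring
  obtain ⟨⟨t, ht⟩, hpm⟩ := sum_sign (2 * g) (fun i => (a i).sign) he Finset.univ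
  have habs : |(V + Vᵀ).det| = (∏ i, (a i).sign) * (V + Vᵀ).det := by
    rw [← hsgn]
    rw [Int.sign_mul_self_eq_abs]
  rw [hsig]
  refine ⟨?_, hodd, ?_, ?_⟩
  · rw [hq]
    rcases Nat.even_or_odd g with hg | hg
    · rw [hg.neg_one_pow]
      obtain ⟨k, hk⟩ := hg
      omega
    · rw [hg.neg_one_pow]
      obtain ⟨k, hk⟩ := hg
      omega
  · have := sum_abs_le (2 * g) (fun i => (a i).sign) he
    push_cast at this
    exact this
  · rw [habs, hq]
    rw [Finset.card_univ, Fintype.card_fin] at ht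
    push_cast at ht
    rcases hpm with h1 | h1
    · rw [h1] at ht ⊢
      omega
    · rw [h1] at ht ⊢
      omega

end Pool.Agent.Y776.KS
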